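import Mathlib
import Pool.Agent.Q290.MR.Coh2

set_option autoImplicit false

/-! Vanishing of the first cohomology with values in homomorphisms between small representations. -/

namespace Pool.Agent.Q290.RG

open Pool.Agent.H29R2.MG Pool.Agent.TH35.MG Pool.Agent.Q290.MG Pool.Agent.Q290.MR Module

section
variable {K V W : Type*} [Field K] [AddCommGroup V] [Module K V] [AddCommGroup W] [Module K W]

/-- `H^1(Γ, Hom_K(V, W)) = 0` for the action `x · A = σ(x) A ρ(x)⁻¹`: every crossed homomorphism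
`c : Γ → Hom_K(V, W)` is principal -/
def HOneZero {Γ : Type*} [Group Γ] (ρ : Γ →* Module.End K V) (σ : Γ →* Module.End K W) : Prop :=
  ∀ c : Γ → (V →ₗ[K] W), (∀ x y, c (x * y) = c x + σ x ∘ₗ c y ∘ₗ ρ x⁻¹) →
    ∃ A : V →ₗ[K] W, ∀ x, c x = σ x ∘ₗ A ∘ₗ ρ x⁻¹ - A

/-- `ρ` is infinitesimally rigid: `H^1(Γ, ad ρ) = 0` -/
def InfRigid {Γ : Type*} [Group Γ] (ρ : Γ →* Module.End K V) : Prop := HOneZero ρ ρ

theorem inv_mul {Γ : Type*} [Group Γ] (ρ : Γ →* Module.End K V) (x : Γ) (v : V) :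
    ρ x⁻¹ (ρ x v) = v := by
  rw [← Module.End.mul_apply, ← map_mul, inv_mul_cancel, map_one, Module.End.one_apply]

theorem mul_inv {Γ : Type*} [Group Γ] (ρ : Γ →* Module.End K V) (x : Γ) (v : V) :
    ρ x (ρ x⁻¹ v) = v := by
  rw [← Module.End.mul_apply, ← map_mul, mul_inv_cancel, map_one, Module.End.one_apply]

theorem std_std {g : ℕ} (hg : 10 ≤ g) (h2 : 2 * (g : K) - 2 ≠ 0)
    {ρ : Gam g →* Module.End K V} {σ : Gam g →* Module.End K W}
    (hρ : StdSum ρ) (hσ : StdSum σ) : HOneZero ρ σ := by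
  classical
  intro c hc
  obtain ⟨a, b, w, hw⟩ := hρ
  have hD : ∀ x y : Gam g, ∀ v : V,
      c (x * y) (ρ (x * y) v) = c x (ρ x (ρ y v)) + σ x (c y (ρ y v)) := by
    intro x y v
    rw [hc, LinearMap.add_apply, LinearMap.comp_apply, LinearMap.comp_apply, map_mul,
      Module.End.mul_apply, inv_mul]
  have hE : ∀ k, ∃ E : Fin g ⊕ Fin g → W, ∀ (γ : Gam g) j,
      c γ (ρ γ (w (Sum.inl (k, j)))) = ∑ i, homMat g γ i j • E i - σ γ (E j) := by
    intro k
    apply std_H hg h2 hσ (fun γ j => c γ (ρ γ (w (Sum.inl (k, j)))))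
    intro γ η j
    rw [hD]
    congr 1
    rw [(homBlock_iff _ _).1 (hw.1 k) η j, map_sum, map_sum]
    exact Finset.sum_congr rfl fun i _ => by rw [map_zsmul, map_zsmul]
  have hF : ∀ k, ∃ e : W, ∀ γ : Gam g, c γ (ρ γ (w (Sum.inr k))) = e - σ γ e := by
    intro k
    apply std_K hg h2 hσ (fun γ => c γ (ρ γ (w (Sum.inr k))))
    intro γ η
    rw [hD, hw.2 k η]
  choose E hE using hE
  choose e he using hF
  set A : V →ₗ[K] W := w.constr K (Sum.elim (fun q => E q.1 q.2) e) with hA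
  have hA1 : ∀ k j, A (w (Sum.inl (k, j))) = E k j := fun k j => by
    rw [hA, Basis.constr_basis]; rfl
  have hA2 : ∀ k, A (w (Sum.inr k)) = e k := fun k => by
    rw [hA, Basis.constr_basis]; rfl
  have key : ∀ γ : Gam g, c γ ∘ₗ ρ γ = A ∘ₗ ρ γ - σ γ ∘ₗ A := by
    intro γ
    apply w.ext
    rintro (⟨k, j⟩ | k)
    · rw [LinearMap.comp_apply, LinearMap.sub_apply, LinearMap.comp_apply, LinearMap.comp_apply,
        hE, hA1, (homBlock_iff _ _).1 (hw.1 k) γ j, map_sum]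
      congr 1
      exact Finset.sum_congr rfl fun i _ => by rw [map_zsmul, hA1]
    · rw [LinearMap.comp_apply, LinearMap.sub_apply, LinearMap.comp_apply, LinearMap.comp_apply,
        he, hA2, hw.2 k γ, hA2]
  refine ⟨-A, fun x => ?_⟩
  apply LinearMap.ext
  intro v
  have h1 := LinearMap.congr_fun (key x) (ρ x⁻¹ v)
  rw [LinearMap.comp_apply, LinearMap.sub_apply, LinearMap.comp_apply, LinearMap.comp_apply,
    mul_inv] at h1
  rw [h1, LinearMap.sub_apply, LinearMap.comp_apply, LinearMap.comp_apply, LinearMap.neg_apply,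
    LinearMap.neg_apply, map_neg]
  abel

end

end Pool.Agent.Q290.RG
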