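import Mathlib
import Pool.Agent.Q290.RG.Rig
import Pool.Agent.Q290.MG.Std

set_option autoImplicit false

/-! Small representations are infinitesimally rigid. -/

namespace Pool.Agent.Q290.RG

open Pool.Agent.H29R2.MG Pool.Agent.TH35.MG Pool.Agent.Q290.MG Pool.Agent.Q290.MR Module

theorem small_small {K V W : Type*} [Field K] [AddCommGroup V] [Module K V] [AddCommGroup W]
    [Module K W] [FiniteDimensional K V] [FiniteDimensional K W] {g : ℕ} (hg : 10 ≤ g)
    (h2 : 2 * (g : K) - 2 ≠ 0) (hV : finrank K V < 2 * g * (g - 1))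
    (hW : finrank K W < 2 * g * (g - 1)) (ρ : Gam g →* Module.End K V)
    (σ : Gam g →* Module.End K W) : HOneZero ρ σ :=
  std_std hg h2 (stdSum_of hg hV (Or.inl h2)) (stdSum_of hg hW (Or.inl h2))

theorem char_zero {K : Type*} [Field K] [CharZero K] {g : ℕ} (hg : 10 ≤ g) :
    2 * (g : K) - 2 ≠ 0 := by
  intro h
  have h1 : ((2 * g : ℕ) : K) = ((2 : ℕ) : K) := by
    push_cast
    exact sub_eq_zero.1 h
  have h2 := Nat.cast_injective h1
  omega

end Pool.Agent.Q290.RG
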